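import Pool.Agent.Helper90.EE.Art
import Pool.Agent.Helper90.EE.LowS
import Pool.Agent.Helper90.SP.Fld
import Pool.Agent.Helper3.AD.Fld

/-!
# Zeta functions and Artin `L`-functions after base change

Let `N/K` be any Galois extension of number fields. Let `Ω/K` be a Galois extension containing `N` such
that `Gal(Ω/N)` is isomorphic to the alternating group `A_n`, `n` large. For almost all complements `F` of
`N` in `Ω` the quotient `ζ_{LF}/ζ_Y` is entire for all fields `Y` between `K` and `Ω` of small degree over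
`K`, `L = Y ∩ N` (for example `Y = L`, a field between `K` and `N`), the quotient
`ζ_{LF} ζ_E / (ζ_L ζ_{EF})` is entire for all `K ≤ E ≤ L ≤ N`, and `L(s, ρ|F)/L(s, ρ)` is entire for all
representations `ρ` of `Gal(N/K)`. Every `N/K` has such extensions `Ω` for infinitely many `n`.
-/

set_option autoImplicit false

open NumberField Equiv Pool.Agent.Helper94.Pr

namespace Pool.Agent.Results.MP_9fc8a5_nt.EveryExtension

/-- The quotient `f/g` of two functions on the half plane `Re s > 1` extends to an entire function. -/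
def EntireQuot (f g : ℂ → ℂ) : Prop :=
  ∃ e : ℂ → ℂ, Differentiable ℂ e ∧ ∀ s : ℂ, 1 < s.re → e s = f s / g s

section

variable {K Ω : Type} [Field K] [NumberField K] [Field Ω] [NumberField Ω] [Algebra K Ω]
  (N : Type) [Field N] [NumberField N] [Algebra K N] [Algebra N Ω] [IsScalarTower K N Ω]

/-- The field `L F` generated in `Ω` by the fields `L`, between `K` and `N`, and `F`, between `K` and
`Ω`. -/
noncomputable def compositum {N : Type} [Field N] [Algebra K N] [Algebra N Ω]
    [IsScalarTower K N Ω] (L : IntermediateField K N) (F : IntermediateField K Ω) :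
    IntermediateField K Ω :=
  L.map (IsScalarTower.toAlgHom K N Ω) ⊔ F

/-- `F` is linearly disjoint from `N` over `K`: `[L F : K] = [L : K] [F : K]` for all fields `L` between
`K` and `N`. -/
def LinDisj (F : IntermediateField K Ω) : Prop :=
  ∀ L : IntermediateField K N,
    Module.finrank K (compositum L F) = Module.finrank K L * Module.finrank K F

/-- The intersection of `N` and the field `Y` between `K` and `Ω`. -/
noncomputable def inter (Y : IntermediateField K Ω) : IntermediateField K N :=
  Y.comap (IsScalarTower.toAlgHom K N Ω)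

/-- The quotient `ζ_{LF}/ζ_Y` is entire for all fields `Y` between `K` and `Ω` with
`[Y:K] ≤ [N:K] [F:K] ^ c`, where `L` is the intersection of `Y` and `N` (for example for `Y = L`, any field
between `K` and `N`); and the quotient `ζ_{LF} ζ_E / (ζ_L ζ_{EF})` is entire for all fields `E`, `L`
between `K` and `N` with `E ≤ L` or `[E:K] < [L:K]`. -/
def ZetaPairs (c : ℝ) (F : IntermediateField K Ω) : Prop :=
  (∀ Y : IntermediateField K Ω,
      (Module.finrank K Y : ℝ) ≤ Module.finrank K N * (Module.finrank K F : ℝ) ^ c →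
      EntireQuot (dedekindZeta (compositum (inter N Y) F)) (dedekindZeta Y)) ∧
    ∀ E L : IntermediateField K N, E ≤ L ∨ Module.finrank K E < Module.finrank K L →
      EntireQuot (fun s => dedekindZeta (compositum L F) s * dedekindZeta E s)
        (fun s => dedekindZeta L s * dedekindZeta (compositum E F) s)

variable {N}

/-- The representation of `Gal(Ω/K)` given by the representation `ρ` of `Gal(N/K)`. -/
noncomputable def overK (Ω : Type) [Field Ω] [Algebra K Ω] [Algebra N Ω] [IsScalarTower K N Ω] [IsGalois K N]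
    {V : Type} [AddCommGroup V] [Module ℂ V] (ρ : Representation ℂ (N ≃ₐ[K] N) V) :
    Representation ℂ (Ω ≃ₐ[K] Ω) V :=
  ρ.comp (AlgEquiv.restrictNormalHom N)

/-- The representation of `Gal(Ω/F)` given by the representation `ρ` of `Gal(N/K)`. -/
noncomputable def overF [IsGalois K N] (F : IntermediateField K Ω) {V : Type} [AddCommGroup V] [Module ℂ V]
    (ρ : Representation ℂ (N ≃ₐ[K] N) V) : Representation ℂ (Ω ≃ₐ[F] Ω) V :=
  (overK Ω ρ).comp
    { toFun := fun g => g.restrictScalars K
      map_one' := rfl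
      map_mul' := fun _ _ => rfl }

/-- `|tr ρ(g) - tr τ(g)| ≤ M (dim ρ - dim τ)` for all `g`. -/
def Larger (M : ℕ) {G V W : Type} [Group G] [AddCommGroup V] [Module ℂ V] [AddCommGroup W]
    [Module ℂ W] (ρ : Representation ℂ G V) (τ : Representation ℂ G W) : Prop :=
  ∀ g, ‖LinearMap.trace ℂ V (ρ g) - LinearMap.trace ℂ W (τ g)‖ ≤
    M * ((Module.finrank ℂ V : ℝ) - Module.finrank ℂ W)

variable (N)

/-- The quotient of `L(s, ρ|F) L(s, τ)` by `L(s, ρ) L(s, τ|F)` is entire for all finite-dimensional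
complex representations `ρ`, `τ` of `Gal(N/K)` with `Larger M ρ τ`. -/
def ArtinPairs (M : ℕ) [IsGalois K N] [IsGalois K Ω] (F : IntermediateField K Ω) : Prop :=
  ∀ {V W : Type} [AddCommGroup V] [Module ℂ V] [FiniteDimensional ℂ V] [AddCommGroup W]
    [Module ℂ W] [FiniteDimensional ℂ W] (ρ : Representation ℂ (N ≃ₐ[K] N) V)
    (τ : Representation ℂ (N ≃ₐ[K] N) W), Larger M ρ τ →
    EntireQuot (fun s => artinFun (overF F ρ) s * artinFun (overK Ω τ) s)
      (fun s => artinFun (overK Ω ρ) s * artinFun (overF F τ) s)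

/-- `F` is linearly disjoint from `N` over `K`, and `ZetaPairs c`, `ArtinPairs M` hold. -/
def Dominated (M : ℕ) (c : ℝ) [IsGalois K N] [IsGalois K Ω] (F : IntermediateField K Ω) : Prop :=
  LinDisj N F ∧ ZetaPairs N c F ∧ ArtinPairs N M F

/-- `F` is a complement of `N` in `Ω`: the fields `N` and `F` generate `Ω`, and `[F:K] = [Ω:N]`. -/
def IsComplement (F : IntermediateField K Ω) : Prop :=
  compositum (⊤ : IntermediateField K N) F = ⊤ ∧ Module.finrank K F = Module.finrank N Ω

end

open Pool.Agent.Helper90.EE in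
lemma dominated_of_good {K N Ω : Type} [Field K] [NumberField K] [Field N] [NumberField N]
    [Field Ω] [NumberField Ω] [Algebra K N] [Algebra K Ω] [Algebra N Ω] [IsScalarTower K N Ω]
    [IsGalois K N] [IsGalois K Ω] {M d : ℕ} {c : ℝ} (hd : Nat.card (N ≃ₐ[K] N) ≤ d)
    {F : IntermediateField K Ω}
    (hF : ∀ g : N ≃ₐ[K] N, ∃ d ∈ F.fixingSubgroup, AlgEquiv.restrictNormalHom N d = g)
    (hG : Good (M + 2 * d) K N Ω F)
    (hlow : ∀ Y : IntermediateField K Ω,
      (Module.finrank K Y : ℝ) ≤ Module.finrank K N * (Module.finrank K F : ℝ) ^ c →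
      EntireQuot (dedekindZeta (compositum (inter N Y) F)) (dedekindZeta Y)) :
    Dominated N M c F := by
  classical
  have hz : ∀ (L : IntermediateField K N) (s : ℂ),
      dedekindZeta (up Ω L) s = dedekindZeta L s := fun L s =>
    (Pool.Agent.Helper3.AD.zeta_congr
      (L.equivMap (IsScalarTower.toAlgHom K N Ω)).toRingEquiv s).symm
  refine ⟨fun L => finrank_sup F hF L, ⟨hlow, ?_⟩, ?_⟩
  · intro E L h
    obtain ⟨e, e1, e2⟩ := zeta_two _ F hF (by omega) hG E L h
    exact ⟨e, e1, fun s hs => by rw [e2 s hs, hz, hz]; rfl⟩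
  · intro V W _ _ _ _ _ _ ρ τ h
    have h0 : (0 : ℝ) ≤ (Module.finrank ℂ V : ℝ) - Module.finrank ℂ W := by
      have h1 := h 1
      have h2 : LinearMap.trace ℂ V (ρ 1) - LinearMap.trace ℂ W (τ 1) =
          (((Module.finrank ℂ V : ℝ) - Module.finrank ℂ W : ℝ) : ℂ) := by
        have e1 : ρ 1 = 1 := map_one ρ
        have e2 : τ 1 = 1 := map_one τ
        rw [e1, e2, LinearMap.trace_one, LinearMap.trace_one]
        push_cast
        rfl
      rw [h2, Complex.norm_real, Real.norm_eq_abs] at h1
      by_contra hcon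
      push Not at hcon
      have h3 : (M : ℝ) * ((Module.finrank ℂ V : ℝ) - Module.finrank ℂ W) ≤ 0 :=
        mul_nonpos_of_nonneg_of_nonpos (Nat.cast_nonneg _) hcon.le
      have h4 := abs_nonneg ((Module.finrank ℂ V : ℝ) - Module.finrank ℂ W)
      have h5 : |(Module.finrank ℂ V : ℝ) - Module.finrank ℂ W| = 0 := by linarith
      rw [abs_eq_zero] at h5
      linarith
    obtain ⟨e, e1, e2⟩ := artin_pair (M + 2 * d) F hG ρ τ (fun g => by
      refine (h g).trans ?_
      refine mul_le_mul_of_nonneg_right ?_ h0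
      push_cast
      have : (0 : ℝ) ≤ (d : ℝ) := Nat.cast_nonneg _
      linarith)
    exact ⟨e, e1, e2⟩

theorem result (d M : ℕ) (ε : ℝ) (hε : 0 < ε) : ∃ (c : ℝ) (C : ℕ), 0 < c ∧ ∀ (K N : Type)
    [Field K] [NumberField K] [Field N] [NumberField N] [Algebra K N] [IsGalois K N],
    Module.finrank K N ≤ d →
    (∀ n ≥ C, ∀ (Ω : Type) [Field Ω] [NumberField Ω] [Algebra K Ω] [Algebra N Ω]
      [IsScalarTower K N Ω] [IsGalois K Ω] (_ : (Ω ≃ₐ[N] Ω) ≃* alternatingGroup (Fin n)),
      0 < Nat.card {F : IntermediateField K Ω // IsComplement N F} ∧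
      (1 - ε) * Nat.card {F : IntermediateField K Ω // IsComplement N F} ≤
        Nat.card {F : IntermediateField K Ω // IsComplement N F ∧ Dominated N M c F}) ∧
    ∀ m : ℕ, ∃ n ≥ m, ∃ (Ω : Type) (_ : Field Ω) (_ : NumberField Ω) (_ : Algebra K Ω)
      (_ : Algebra N Ω) (_ : IsScalarTower K N Ω) (_ : IsGalois K Ω),
      Nonempty ((Ω ≃ₐ[N] Ω) ≃* alternatingGroup (Fin n)) := by
  classical
  obtain ⟨ε₂, hε₂, hε₂M, hε₂d⟩ : ∃ ε₂ : ℝ, 0 < ε₂ ∧ ε₂ * ((d : ℝ) * (M + 2 * d : ℕ)) ≤ 1 ∧
      ε₂ ≤ 1 / (2 * ((d : ℝ) + 1)) := by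
    refine ⟨min (1 / ((d : ℝ) * (M + 2 * d : ℕ) + 1)) (1 / (2 * ((d : ℝ) + 1))), by positivity,
      ?_, min_le_right _ _⟩
    refine (mul_le_mul_of_nonneg_right (min_le_left _ _) (by positivity)).trans ?_
    rw [div_mul_eq_mul_div, one_mul, div_le_one (by positivity)]
    linarith
  obtain ⟨C, hC⟩ := Pool.Agent.Helper90.EE.card_near d ε₂ ε hε₂ hε
  obtain ⟨c, n₁, hc, hlow⟩ := Pool.Agent.Helper90.EE.low_single d
  refine ⟨c, C + n₁, hc, fun K N _ _ _ _ _ _ hd => ⟨?_, ?_⟩⟩
  · intro n hn Ω _ _ _ _ _ _ κ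
    have hd' : Nat.card (N ≃ₐ[K] N) ≤ d := by rwa [IsGalois.card_aut_eq_finrank]
    obtain ⟨⟨F₀, hF₀⟩, hcard⟩ := hC K N hd' n (by omega) Ω κ
    have hfin : Finite (IntermediateField K Ω) :=
      Finite.of_injective (fun F : IntermediateField K Ω => F.fixingSubgroup) fun F F' h => by
        rw [← IsGalois.fixedField_fixingSubgroup F, ← IsGalois.fixedField_fixingSubgroup F']
        exact congrArg IntermediateField.fixedField h
    have hne : Nonempty {F : IntermediateField K Ω // IsComplement N F} := ⟨⟨F₀, hF₀⟩⟩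
    refine ⟨Nat.card_pos, ?_⟩
    -- the properties of the good complements
    have hdom : ∀ F : IntermediateField K Ω, Pool.Agent.Helper90.EE.NearF N ε₂ F →
        Dominated N M c F := by
      intro F hF
      have hF' := hF
      obtain ⟨σ, hσ, hr, hN⟩ := hF
      exact dominated_of_good hd' (fun g => ⟨σ g, by rw [hr]; exact ⟨g, rfl⟩, hσ g⟩)
        (Pool.Agent.Helper90.EE.good_of_near hε₂.le hε₂M hd' σ hσ hN F hr)
        fun Y hY => hlow n (by omega) K N hd' Ω κ F (hF'.mono hε₂d) Y hY
    have h1 : Nat.card {F : IntermediateField K Ω // IsComplement N F} ≤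
        Nat.card {F : IntermediateField K Ω // IsComplement N F ∧ Dominated N M c F} +
        Nat.card {F : IntermediateField K Ω // IsComplement N F ∧
          ¬ Pool.Agent.Helper90.EE.NearF N ε₂ F} := by
      rw [← Nat.card_sum]
      refine Nat.card_le_card_of_injective (fun F =>
        if h : Pool.Agent.Helper90.EE.NearF N ε₂ F.1 then
          Sum.inl ⟨F.1, F.2, hdom F.1 h⟩ else Sum.inr ⟨F.1, F.2, h⟩) ?_
      intro F F' h
      simp only at h
      by_cases hF : Pool.Agent.Helper90.EE.NearF N ε₂ F.1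
      · by_cases hF' : Pool.Agent.Helper90.EE.NearF N ε₂ F'.1
        · rw [dif_pos hF, dif_pos hF'] at h
          have h3 := congrArg Subtype.val (Sum.inl_injective h)
          exact Subtype.ext h3
        · rw [dif_pos hF, dif_neg hF'] at h
          exact absurd h Sum.inl_ne_inr
      · by_cases hF' : Pool.Agent.Helper90.EE.NearF N ε₂ F'.1
        · rw [dif_neg hF, dif_pos hF'] at h
          exact absurd h Sum.inr_ne_inl
        · rw [dif_neg hF, dif_neg hF'] at h
          have h3 := congrArg Subtype.val (Sum.inr_injective h)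
          exact Subtype.ext h3
    have h2 : (Nat.card {F : IntermediateField K Ω // IsComplement N F} : ℝ) ≤
        Nat.card {F : IntermediateField K Ω // IsComplement N F ∧ Dominated N M c F} +
        Nat.card {F : IntermediateField K Ω // IsComplement N F ∧
          ¬ Pool.Agent.Helper90.EE.NearF N ε₂ F} := by exact_mod_cast h1
    have h3 : (Nat.card {F : IntermediateField K Ω // IsComplement N F ∧
          ¬ Pool.Agent.Helper90.EE.NearF N ε₂ F} : ℝ) ≤
        ε * Nat.card {F : IntermediateField K Ω // IsComplement N F} := hcard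
    linarith
  · intro m
    obtain ⟨n, Ω, i1, i2, i3, i4, i5, i6, h1, h2⟩ := Pool.Agent.Helper90.SP.exists_alt K N m
    exact ⟨n, h1, Ω, i1, i2, i3, i4, i5, i6, h2⟩

end Pool.Agent.Results.MP_9fc8a5_nt.EveryExtension
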